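import Pool.Agent.Q93.TAU.Main

/-!
# The support bound `τ(B) ≤ 1 + dim G + rk X(G)` for all diagonalizable groups

The statement concerns only the finitely generated abelian group `X = X(G)` and the characters.

Proof. Let `I'` be the union of the supports of the elements of `B_I`. Then `ℤ B_I` is the lattice
`L` of all relations on `I'`. Localizing at each prime shows that `L` is generated by relations
with at most `rk X + 1` nonzero coefficients. Every subset `J` of `I'` can be enlarged by at most
`dim G = rank X` elements to the support `J'` of an invariant monomial (Caratheodory), and all
relations on `J'` are differences of invariant monomials supported in `J'`.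
-/

namespace Pool.Agent.Results.MP_7bc96b_al.SupportBound

open Pool.Agent.Q93.TAU

theorem result {X : Type*} [AddCommGroup X] [AddGroup.FG X] {n : ℕ} (χ : Fin n → X) :
    tau χ ≤ 1 + Module.finrank ℤ X + AddGroup.rank X ∧
      IsBound χ (1 + Module.finrank ℤ X + AddGroup.rank X) := by
  refine ⟨tau_le χ, ?_⟩
  obtain ⟨g, hg⟩ := exists_generators (X := X)
  have : Module.Finite ℤ X := Module.Finite.iff_addGroup_fg.2 inferInstance
  exact isBound_of_generators g hg χ

end Pool.Agent.Results.MP_7bc96b_al.SupportBound
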